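import Pool.Agent.H542R3.ARW.Chain

namespace Pool.Agent.Results.MP_3af8b7_pr.WiredMono

open H542ARW

/-- sites of the box of side length `L` in dimension `d` -/
abbrev Box (d L : ℕ) := Fin d → Fin L

/-- directed edges: a site, a coordinate direction and an orientation (`true` is `+`) -/
abbrev Edge (d L : ℕ) := Box d L × Fin d × Bool

/-- starting site of an edge -/
def src (d L : ℕ) (e : Edge d L) : Box d L := e.1

/-- end of an edge: the neighbouring site, or `none` when the neighbour is outside the box -/
def tgt (d L : ℕ) (e : Edge d L) : Option (Box d L) :=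
  match e with
  | (v, i, true) =>
      if h : (v i : ℕ) + 1 < L then some (Function.update v i ⟨(v i : ℕ) + 1, h⟩) else none
  | (v, i, false) =>
      if 0 < (v i : ℕ) then
        some (Function.update v i ⟨(v i : ℕ) - 1, by have := (v i).isLt; omega⟩) else none

/-- `expCard d L lam φ k` is the expected value of `φ |w_k|` for the wired chain with uniform
driving on the box, started at the empty configuration -/
noncomputable def expCard (d L : ℕ) (lam : ℝ) (φ : ℕ → ℝ) (k : ℕ) : ℝ :=
  (driven (src d L) (tgt d L) lam)^[k] (fun w => φ (sleepers w)) (fun _ => Site.active 0)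

theorem toSink_box (d L : ℕ) (hd : 1 ≤ d) : ToSink (src d L) (tgt d L) := by
  intro v
  have key : ∀ (m : ℕ) (v : Box d L), (v ⟨0, hd⟩ : ℕ) = m →
      Relation.ReflTransGen (fun a b : Option (Box d L) =>
        ∃ e : Edge d L, some (src d L e) = a ∧ tgt d L e = b) (some v) none := by
    intro m
    induction m with
    | zero =>
      intro v hv
      refine Relation.ReflTransGen.single ⟨(v, ⟨0, hd⟩, false), rfl, ?_⟩
      simp only [tgt]
      rw [if_neg (by omega)]
    | succ m ih =>
      intro v hv
      have hlt : m < L := by have := (v ⟨0, hd⟩).isLt; omega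
      refine Relation.ReflTransGen.head (b := some (Function.update v ⟨0, hd⟩ ⟨m, hlt⟩))
        ⟨(v, ⟨0, hd⟩, false), rfl, ?_⟩ (ih _ (by simp))
      simp only [tgt]
      rw [if_pos (by omega)]
      congr 2
      apply Fin.ext
      simp [hv]
  exact key _ v rfl

/-- In every dimension `d ≥ 1`, for every side length `L ≥ 1` and every sleep rate `lam > 0`, for
every nondecreasing `φ ≥ 0` and every `k`, the wired chain with uniform driving satisfies
`E φ |w_k| ≤ E φ |w_{k+1}|`; so `|w_k|` is stochastically nondecreasing in `k`. -/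
theorem result (d L : ℕ) (hd : 1 ≤ d) (hL : 1 ≤ L) (lam : ℝ) (hlam : 0 < lam) (φ : ℕ → ℝ)
    (hφ : Monotone φ) (h0 : 0 ≤ φ 0) (k : ℕ) :
    expCard d L lam φ k ≤ expCard d L lam φ (k + 1) := by
  have : Nonempty (Box d L) := ⟨fun _ => ⟨0, hL⟩⟩
  exact driven_mono (toSink_box d L hd) hlam φ hφ h0 k

end Pool.Agent.Results.MP_3af8b7_pr.WiredMono
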